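import Pool.Agent.Q66.RX.Stm

set_option autoImplicit false

namespace Pool.Agent.Q90.RX

open MeasureTheory Filter Topology Set Pool.Agent.Q66.RX Pool.Agent.H1R3.BT

section
variable {G : Type} [CommGroup G] [TopologicalSpace G] [IsTopologicalGroup G]
  [LocallyCompactSpace G] [T2Space G] [MeasurableSpace G] [BorelSpace G]
  {μ : Measure G} [μ.IsHaarMeasure]
  {H : Type} [NormedAddCommGroup H] [InnerProductSpace ℂ H] [CompleteSpace H]
  (S : Sys G μ H)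

theorem norm_le_of_char {a : S.A} {c : ℝ} (hc : 0 ≤ c) (h : ∀ m : S.Δ, ‖m a‖ ≤ c) : ‖a‖ ≤ c := by
  have h1 : ‖WeakDual.gelfandTransform ℂ S.A a‖ = ‖a‖ :=
    (AddMonoidHomClass.isometry_iff_norm _).1 (gelfandTransform_isometry S.A) a
  rw [← h1]
  exact (ContinuousMap.norm_le _ hc).2 h

theorem apply_le (a : S.A) (v : H) {c : ℝ} (h : ‖a‖ ≤ c) : ‖(a : H →L[ℂ] H) v‖ ≤ c * ‖v‖ :=
  ((a : H →L[ℂ] H).le_opNorm v).trans (mul_le_mul_of_nonneg_right h (norm_nonneg _))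

theorem pka (v : H) (ε : ℝ) (hε : 0 < ε) :
    ∃ (k : PontryaginDual G → ℝ) (hk : CC k), (∀ χ, 0 ≤ k χ) ∧ (∀ χ, k χ ≤ 1) ∧
      ‖((S.T hk.toC : S.A) : H →L[ℂ] H) v - v‖ ≤ ε := by
  obtain ⟨p, hp, -, -, hpv⟩ := S.approx_id v (ε := ε / 3) (by positivity)
  set P : S.A := S.pi hp.toC with hP
  set δ : ℝ := ε / (3 * (‖v‖ + 1)) with hδ
  have hv1 : 0 < ‖v‖ + 1 := by positivity
  have hδpos : 0 < δ := by positivity
  have hδv : δ * ‖v‖ ≤ ε / 3 := by
    have h1 : δ * (‖v‖ + 1) = ε / 3 := by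
      rw [hδ]
      field_simp
    nlinarith [norm_nonneg v]
  set K : Set S.Δ := {m | δ ≤ ‖m P‖} with hK
  have hKc : IsCompact K := (isClosed_le continuous_const (S.cont_char P).norm).isCompact
  have hKg : K ⊆ {m : S.Δ | S.good m} := by
    intro m hm
    by_contra hb
    have h1 : m P = 0 := S.char_pi_bad hb hp.toC
    have h2 : δ ≤ ‖m P‖ := hm
    rw [h1, norm_zero] at h2
    linarith
  have hKi : IsCompact (S.κ '' K) := hKc.image_of_continuousOn (S.κ_contOn.mono hKg)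
  obtain ⟨k, hk1, -, hks, hk01⟩ := exists_continuous_one_zero_of_isCompact hKi isClosed_empty
    (disjoint_empty _)
  have hk : CC (fun χ => k χ) := ⟨k.continuous, hks⟩
  refine ⟨fun χ => k χ, hk, fun χ => (hk01 χ).1, fun χ => (hk01 χ).2, ?_⟩
  set T : S.A := S.T hk.toC with hT
  have hTm : ∀ m : S.Δ, ∃ t : ℝ, 0 ≤ t ∧ t ≤ 1 ∧ m T = (t : ℂ) ∧ (m ∈ K → t = 1) := by
    intro m
    by_cases hm : S.good m
    · refine ⟨k (S.κ m), (hk01 _).1, (hk01 _).2, ?_, ?_⟩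
      · rw [hT, S.char_T, S.sharp_good _ hm]
      · intro hmK
        exact hk1 ⟨m, hmK, rfl⟩
    · refine ⟨0, le_refl _, zero_le_one, ?_, ?_⟩
      · rw [hT, S.char_T, S.sharp_bad _ hm, Complex.ofReal_zero]
      · intro hmK
        exact absurd (hKg hmK) hm
  have hT1 : ‖T‖ ≤ 1 := by
    refine norm_le_of_char S zero_le_one fun m => ?_
    obtain ⟨t, h0, h1, h2, -⟩ := hTm m
    rw [h2, Complex.norm_real, Real.norm_eq_abs, abs_of_nonneg h0]
    exact h1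
  have hTP : ‖T * P - P‖ ≤ δ := by
    refine norm_le_of_char S hδpos.le fun m => ?_
    obtain ⟨t, h0, h1, h2, h3⟩ := hTm m
    rw [map_sub, map_mul, h2]
    by_cases hmK : m ∈ K
    · rw [h3 hmK, Complex.ofReal_one, one_mul, sub_self, norm_zero]
      exact hδpos.le
    · have h4 : ‖m P‖ < δ := not_le.1 hmK
      have h5 : (t : ℂ) * m P - m P = ((t - 1 : ℝ) : ℂ) * m P := by push_cast; ring
      rw [h5, norm_mul, Complex.norm_real, Real.norm_eq_abs]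
      have h6 : |t - 1| ≤ 1 := by rw [abs_le]; constructor <;> linarith
      calc |t - 1| * ‖m P‖ ≤ 1 * ‖m P‖ := mul_le_mul_of_nonneg_right h6 (norm_nonneg _)
        _ ≤ δ := by rw [one_mul]; exact h4.le
  have e1 : (T : H →L[ℂ] H) v - v = (T : H →L[ℂ] H) (v - (P : H →L[ℂ] H) v) +
      ((T * P - P : S.A) : H →L[ℂ] H) v + ((P : H →L[ℂ] H) v - v) := by
    have h1 : ((T * P - P : S.A) : H →L[ℂ] H) v =
        (T : H →L[ℂ] H) ((P : H →L[ℂ] H) v) - (P : H →L[ℂ] H) v := rfl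
    rw [h1, map_sub]
    abel
  rw [e1]
  have b1 : ‖(T : H →L[ℂ] H) (v - (P : H →L[ℂ] H) v)‖ ≤ ε / 3 := by
    have h1 := apply_le S T (v - (P : H →L[ℂ] H) v) hT1
    rw [one_mul, norm_sub_rev] at h1
    exact h1.trans hpv
  have b2 : ‖((T * P - P : S.A) : H →L[ℂ] H) v‖ ≤ ε / 3 := (apply_le S _ v hTP).trans hδv
  have b3 : ‖(P : H →L[ℂ] H) v - v‖ ≤ ε / 3 := hpv
  have h1 := norm_add₃_le (a := (T : H →L[ℂ] H) (v - (P : H →L[ℂ] H) v))
    (b := ((T * P - P : S.A) : H →L[ℂ] H) v) (c := (P : H →L[ℂ] H) v - v)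
  linarith

end

theorem t_PKA : S_PKA := by
  intro G _ _ _ _ _ _ _ μ _ H _ _ _ S v ε hε
  exact pka S v ε hε

end Pool.Agent.Q90.RX
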